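import Pool.Agent.Lib.MP_d9bae3_nt.NG.FinGB
import Pool.Agent.Lib.MP_d9bae3_nt.NA.NFine

/-!
# Popescu's conjecture for almost all abelian extensions with a given group

Let `F` be any number field and `A = ∏ ℤ/n_i` a finite abelian group, `A ≠ 0`.  We count **all** the extensions `H/F` with the group `A` (the subfields `H` of an algebraic
closure of `F`, Galois over `F` with a group isomorphic to `A`), in the order of the norm of the product of the ramified primes.  For one hundred per cent of them, for all
admissible `S` and `r`, all characters in the set `Ĝ'` of Popescu's conjecture are faithful.  If `A` is not cyclic, then for one hundred per cent of the extensions `Ĝ'` is empty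
for all `S` and `r`, the evaluator `η'` of the conjecture is zero, and the conjecture (`PopescuConj`) holds.
-/

namespace Pool.Agent.Results.MP_1322f0_nt.AllExtensions

open NumberField Filter Topology StarkR

/-- Let `F` be a number field and `∏ ℤ/n_i` a nontrivial finite abelian group.  One hundred per cent of the extensions `H` of `F` with the group `∏ ℤ/n_i`, in the order of the
norm of the product of the ramified primes, have the property `FinePop F H`: the characters in `Ĝ'` are faithful, and if the group is not cyclic, `Ĝ'` is empty and Popescu's
conjecture holds, for all `S`, `r` and all places `v_i`, `w_i`. -/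
theorem result (F : Type) [Field F] [NumberField F] (m : ℕ) (n : Fin m → ℕ) [∀ i, NeZero (n i)] (hA : ∃ v : V n, v ≠ 0) :
    (∀ X, (AExt F n X).Finite) ∧
    Tendsto (fun X : ℕ => (Set.ncard {H | H ∈ AExt F n X ∧ ∃ _ : NumberField H, FinePop F H} : ℝ) / ((AExt F n X).ncard : ℝ))
      atTop (𝓝 1) := by
  refine nag_density F n hA (k := 0 + Module.finrank ℚ F + 1) (by omega) (fun H => ∃ _ : NumberField H, FinePop F H) ?_
  intro H hNF hGal φ h
  have hcomm : IsMulCommutative Gal(H/F) := ⟨⟨fun σ τ => φ.injective (by rw [map_mul, map_mul, mul_comm])⟩⟩
  exact ⟨hNF, finePop_of h⟩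

end Pool.Agent.Results.MP_1322f0_nt.AllExtensions
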