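import Pool.Agent.Lib.MP_d9bae3_nt.NG.DPos
import Pool.Agent.Lib.MP_d9bae3_nt.NA.NFine

/-!
# Popescu's conjecture for abelian extensions of a given degree

Let `F` be any number field and `N` a positive integer which is not squarefree.  We count **all** the abelian extensions `H/F` of degree `N` (the subfields `H` of an algebraic
closure of `F`, Galois over `F` of degree `N` with an abelian group) in the order of the norm of the product of the ramified primes.  A positive proportion of them is not cyclic and
has the following property: for all admissible `S` and `r` the set `Ĝ'` of Popescu's conjecture is empty, the evaluator `η'` is zero, and the conjecture (`PopescuConj`) holds.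

If `N = p^k M` with a prime `p` which does not divide `M`, `k ≥ 2`, and `F(ζ_p)` contains no primitive `p^k`-th root of unity (for example `p` is unramified in `F`, or `p = 2` and `F`
has a real place), then this proportion is one hundred per cent.
-/

namespace Pool.Agent.Results.MP_1322f0_nt.AllOfDegree

open NumberField Filter Topology StarkR

/-- Let `F` be a number field and `N > 0` not squarefree.  The abelian extensions `H` of `F` of degree `N`, in the order of the norm of the product of the ramified primes, which are
not cyclic and have the property `FinePop F H` (`Ĝ'` is empty and Popescu's conjecture holds, for all `S`, `r` and all places `v_i`, `w_i`) have a positive lower proportion.  The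
proportion tends to `1` if, for some prime `p` with `p^k` exactly dividing `N`, `k ≥ 2`, the field `F(ζ_p)` contains no primitive `p^k`-th root of unity. -/
theorem result (F : Type) [Field F] [NumberField F] (N : ℕ) (hN : 0 < N) (hsq : ¬ Squarefree N) :
    (∀ X, (AbExt F N X).Finite) ∧
    (∃ c : ℝ, 0 < c ∧ ∀ᶠ X : ℕ in atTop, 0 < (AbExt F N X).ncard ∧
      c * ((AbExt F N X).ncard : ℝ) ≤ (Set.ncard {H | H ∈ AbExt F N X ∧ (¬ IsCyclic Gal(H/F) ∧ ∃ _ : NumberField H, FinePop F H)} : ℝ)) ∧
    ((∃ p k M : ℕ, p.Prime ∧ 2 ≤ k ∧ p.Coprime M ∧ N = p ^ k * M ∧ ¬ ∃ ζ : CyclotomicField p F, IsPrimitiveRoot ζ (p ^ k)) →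
      Tendsto (fun X : ℕ => (Set.ncard {H | H ∈ AbExt F N X ∧ (¬ IsCyclic Gal(H/F) ∧ ∃ _ : NumberField H, FinePop F H)} : ℝ) /
        ((AbExt F N X).ncard : ℝ)) atTop (𝓝 1)) := by
  obtain ⟨h1, h2⟩ := deg_positive F hN hsq (k' := 0 + Module.finrank ℚ F + 1) (by omega) (fun H => ∃ _ : NumberField H, FinePop F H)
    fun H hNF hGal hcomm h => ⟨hNF, finePop_of h⟩
  refine ⟨h1, h2, ?_⟩
  rintro ⟨p, k, M, hp, hk, hcop, rfl, hF⟩
  exact (deg_density F hp hk (Nat.pos_of_mul_pos_left hN) hcop hF (k' := 0 + Module.finrank ℚ F + 1) (by omega)
    (fun H => ∃ _ : NumberField H, FinePop F H) fun H hNF hGal hcomm h => ⟨hNF, finePop_of h⟩).2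

end Pool.Agent.Results.MP_1322f0_nt.AllOfDegree
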