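import Pool.Agent.Lib.MP_d9bae3_nt.NG.BFinC
import Pool.Agent.Lib.MP_d9bae3_nt.NA.NFine

/-!
# Popescu's conjecture for abelian extensions of a given degree in the order of the discriminant

Let `F` be any number field and `N > 1` an integer such that `l^2` divides `N` for the smallest prime factor `l` of `N` (for example any multiple of `4`, or any prime power which is
not a prime).  We count **all** the abelian extensions `H/F` of degree `N` (the subfields `H` of an algebraic closure of `F`, Galois over `F` of degree `N` with an abelian group) in the
order of the absolute value of the discriminant of `H`.  One hundred per cent of them are not cyclic and have the following property for all admissible `S` and `r`: the set `Ĝ'` of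
Popescu's conjecture is empty, the evaluator `η'` is zero, and the conjecture (`PopescuConj`) holds.
-/

namespace Pool.Agent.Results.MP_1322f0_nt.ByDiscriminant

open NumberField Filter Topology StarkR

/-- Let `F` be a number field and `N > 1` such that the square of the smallest prime factor of `N` divides `N`.  The proportion of the abelian extensions `H` of `F` of degree `N` with
`|disc H| ≤ X` which are not cyclic and have the property `FinePop F H` (`Ĝ'` is empty and Popescu's conjecture holds, for all `S`, `r` and all places `v_i`, `w_i`) tends to `1` as
`X → ∞`. -/
theorem result (F : Type) [Field F] [NumberField F] (N : ℕ) (hN : 1 < N) (hsq : N.minFac ^ 2 ∣ N) :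
    (∀ X, (AbDExt F N X).Finite) ∧
    Tendsto (fun X : ℕ => (Set.ncard {H | H ∈ AbDExt F N X ∧ (¬ IsCyclic Gal(H/F) ∧ ∃ _ : NumberField H, FinePop F H)} : ℝ) /
      ((AbDExt F N X).ncard : ℝ)) atTop (𝓝 1) :=
  abd_density F (Nat.minFac_prime (by omega)) hsq (by omega) (fun p hp hpN => Nat.minFac_le_of_dvd hp.two_le hpN)
    (k := 0 + Module.finrank ℚ F + 1) (fun H => ∃ _ : NumberField H, FinePop F H) fun H hNF hGal hcomm h => ⟨hNF, finePop_of h⟩

end Pool.Agent.Results.MP_1322f0_nt.ByDiscriminant
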