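import Pool.Agent.Lib.MP_d9bae3_nt.EX.Main
import Pool.Agent.Lib.MP_d9bae3_nt.NA.NFine

/-!
# Popescu's conjecture for almost all abelian extensions of an arbitrary number field

Let `F` be any number field and `A = ∏ ℤ/n_i` any finite abelian group.  For a finite set `S` of primes of `F` let `ExtS F n S` be the finite set of **all** extensions `H` of `F` (in an algebraic closure of `F`) with
`Gal(H/F) ≃ A` which are unramified at all primes outside of `S`.  As `S` runs through the directed set of the finite sets of primes of `F`, the proportion in `ExtS F n S` of the extensions `H` with the following properties tends to `1`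
(`FinePop F H`): for all admissible `S'`, `r`, `v`, `w` all characters in the set `Ĝ'` of Popescu's conjecture are faithful, and if `A` is not cyclic then `Ĝ'` is empty, the evaluator `η'` of the conjecture is zero, and the conjecture holds for `H/F`, `S'`, `r` and the `w_i`.

Proof.  Let `L = F(ζ_e)`, `e = ∏ n_i`.  An extension with the group `A` is, up to automorphisms of `A`, a surjective homomorphism `φ : Gal(Ω/F) → A`; over `L` it is given by Kummer radicals `x_i ∈ Lˣ`, unique up to `n_i`-th powers.  Let `Q_1, ..., Q_N` be primes of `L` of degree
one over `F`, in different orbits of `Gal(L/F)`.  The classes of the radicals in the groups `B_j = ∏ Lˣ/(Lˣ^n_i, 1 + Q_j)`, which have at most `∏ n_i²` elements, give a homomorphism from the finite group of the `φ` which are unramified outside of `S` to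
`∏ B_j`.  If `S` is large, it is surjective: the transfer of the Kummer character of `b ∈ L` is a homomorphism `Gal(Ω/F) → ℤ/e` with the radical `∏_τ τ(b)^(t_τ)` over `L`, and by the Chinese remainder theorem `b` can be chosen such that this radical has any
given class at `Q_j` and is trivial at the other `Q_i`.  So for almost all `φ` every nontrivial cyclic subgroup of `A` is the decomposition group of more than `[F:ℚ]` of the primes below the `Q_j`; each of these is in `S'`, and it gives a zero at `0` of the
L-functions of the characters which are trivial on this subgroup.
-/

namespace Pool.Agent.Results.MP_1322f0_nt.EveryFieldEveryGroup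

open NumberField Filter Topology StarkR

/-- Let `F` be a number field and `∏ ℤ/n_i` a finite abelian group.  For every finite set `S` of primes of `F` there are only finitely many extensions of `F` with the group `∏ ℤ/n_i` which are unramified outside of `S`, and as `S` grows the
proportion of those with the property `FinePop` tends to `1`. -/
theorem result (F : Type) [Field F] [NumberField F] (m : ℕ) (n : Fin m → ℕ) [∀ i, NeZero (n i)] :
    (∀ S : Finset (Prm F), (ExtS F n S).Finite) ∧
    Tendsto (fun S : Finset (Prm F) => (Set.ncard {H | H ∈ ExtS F n S ∧ ∃ _ : NumberField H, FinePop F H} : ℝ) /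
      ((ExtS F n S).ncard : ℝ)) atTop (𝓝 1) := by
  refine ratio_main n (k := 0 + Module.finrank ℚ F + 1) (Nat.succ_pos _) (fun H => ∃ _ : NumberField H, FinePop F H) ?_
  intro H iN iG hiso h
  obtain ⟨f⟩ := hiso
  have hcomm : IsMulCommutative Gal(H/F) := ⟨⟨fun σ τ => f.injective (by rw [map_mul, map_mul, mul_comm])⟩⟩
  exact ⟨iN, finePop_of h⟩

end Pool.Agent.Results.MP_1322f0_nt.EveryFieldEveryGroup
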